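import Pool.Agent.helper56.CY.Spec

set_option autoImplicit false

namespace Pool.Agent.CY
open Finset CT

theorem RDW_sub {V : Type} [DecidableEq V] (L : List V) (v w x : V) (j k : Fin 4 → Fin 4)
    (c : V × Fin 4 → ℕ) (a : Fin 4) (hx : x ≠ v) : cred c v w j k (x, a) = c (x, a) := by
  unfold cred
  rw [if_neg]
  rintro (h | h)
  · exact hx (Prod.ext_iff.1 h).1
  · exact hx (Prod.ext_iff.1 h).1

theorem RDW : RDW_stmt := by
  intro V _ L e u v w i j k c m hT hm
  have hnd := hT.tri.nd
  simp only [List.nodup_cons, List.mem_cons, not_or] at hnd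
  obtain ⟨⟨huv, huw, huL⟩, ⟨hvw, hvL⟩, hwL, _⟩ := hnd
  have hS : ∀ x, x ∈ (u :: v :: w :: L).toFinset ↔ (x = u ∨ x = v ∨ x = w ∨ x ∈ L) := by
    intro x
    simp
  have hS1 : ∀ x, x ∈ (v :: L).toFinset ↔ (x = v ∨ x ∈ L) := by
    intro x
    simp
  have hcu : c (u, i 0) = m :=
    (hT.col (u, i 0) (by simp [dts])).2 (Or.inl rfl)
  have hcv : c (v, j 0) = m :=
    (hT.col (v, j 0) (by simp [dts])).2 (Or.inr (Or.inr (Or.inl rfl)))
  have hcw : c (w, k 0) = m :=
    (hT.col (w, k 0) (by simp [dts])).2 (Or.inr (Or.inr (Or.inr (Or.inr (Or.inl rfl)))))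
  have hWu : u ∈ Wt (u :: v :: w :: L).toFinset c := by
    rw [Wt, mem_filter]
    exact ⟨(hS u).2 (Or.inl rfl), i 0, by rw [hcu]; exact hm⟩
  have hWv : v ∈ Wt (u :: v :: w :: L).toFinset c := by
    rw [Wt, mem_filter]
    exact ⟨(hS v).2 (Or.inr (Or.inl rfl)), j 0, by rw [hcv]; exact hm⟩
  have hWw : w ∈ Wt (u :: v :: w :: L).toFinset c := by
    rw [Wt, mem_filter]
    exact ⟨(hS w).2 (Or.inr (Or.inr (Or.inl rfl))), k 0, by rw [hcw]; exact hm⟩
  refine ⟨?_, ?_, ?_⟩
  · have hsub : Wt (v :: L).toFinset (cred c v w j k) ⊆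
        ((Wt (u :: v :: w :: L).toFinset c).erase u).erase w := by
      intro x hx
      rw [Wt, mem_filter] at hx
      obtain ⟨hx1, a, ha⟩ := hx
      rw [hS1] at hx1
      rw [mem_erase, mem_erase]
      rcases hx1 with rfl | hx1
      · exact ⟨hvw, Ne.symm huv, hWv⟩
      · have hxv : x ≠ v := by
          rintro rfl
          exact hvL hx1
        refine ⟨?_, ?_, ?_⟩
        · rintro rfl
          exact hwL hx1
        · rintro rfl
          exact huL hx1
        · rw [Wt, mem_filter]
          refine ⟨(hS x).2 (Or.inr (Or.inr (Or.inr hx1))), a, ?_⟩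
          rw [RDW_sub L v w x j k c a hxv] at ha
          exact ha
    have h1 := card_le_card hsub
    have hw2 : w ∈ (Wt (u :: v :: w :: L).toFinset c).erase u := mem_erase.2 ⟨Ne.symm huw, hWw⟩
    have h2 := card_erase_add_one hw2
    have h3 := card_erase_add_one hWu
    omega
  · intro h hcon
    apply h
    apply Finset.Subset.antisymm (filter_subset _ _)
    intro x hx
    rw [hS] at hx
    rcases hx with rfl | rfl | rfl | hx
    · exact hWu
    · exact hWv
    · exact hWw
    · have hxv : x ≠ v := by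
        rintro rfl
        exact hvL hx
      have hx2 : x ∈ Wt (v :: L).toFinset (cred c v w j k) := by
        rw [hcon]
        exact (hS1 x).2 (Or.inr hx)
      unfold Wt at hx2
      rw [mem_filter] at hx2
      obtain ⟨_, a, ha⟩ := hx2
      rw [RDW_sub L v w x j k c a hxv] at ha
      exact mem_filter.2 ⟨(hS x).2 (Or.inr (Or.inr (Or.inr hx))), a, ha⟩
  · have hsub : ({u, v, w} : Finset V) ⊆ Wt (u :: v :: w :: L).toFinset c := by
      intro x hx
      rw [mem_insert, mem_insert, mem_singleton] at hx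
      rcases hx with rfl | rfl | rfl
      · exact hWu
      · exact hWv
      · exact hWw
    have h3 : ({u, v, w} : Finset V).card = 3 := card_eq_three.2 ⟨u, v, w, huv, huw, hvw, rfl⟩
    rw [← h3]
    exact card_le_card hsub

end Pool.Agent.CY
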